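import Mathlib

set_option autoImplicit false

namespace Pool.Agent.Results.MP_07bc1a_al.NoACCP

@[ext] structure M : Type where
  n : ℕ
  p : ℕ
  q : ℕ
  f : ℤ

instance : Monoid M where
  mul x y := ⟨x.n + y.n, if x.n = 0 then x.p + y.p else x.p, if y.n = 0 then x.q + y.q else y.q,
    x.f + y.f⟩
  one := ⟨0, 0, 0, 0⟩
  mul_assoc x y z := by
    refine M.ext (add_assoc _ _ _) ?_ ?_ (add_assoc _ _ _) <;>
      simp only [HMul.hMul, Mul.mul] <;> split_ifs <;> omega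
  one_mul x := by
    refine M.ext (zero_add _) (zero_add _) ?_ (zero_add _)
    show (if x.n = 0 then 0 + x.q else x.q) = x.q
    simp
  mul_one x := by
    refine M.ext (add_zero _) ?_ (add_zero _) (add_zero _)
    show (if x.n = 0 then x.p + 0 else x.p) = x.p
    simp

lemma mul_def (x y : M) : x * y = ⟨x.n + y.n, if x.n = 0 then x.p + y.p else x.p,
    if y.n = 0 then x.q + y.q else y.q, x.f + y.f⟩ := rfl

def a : M := ⟨0, 1, 0, -1⟩
def b : M := ⟨1, 0, 0, 0⟩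
def c : M := ⟨0, 1, 1, 1⟩
def H : Submonoid M := Submonoid.closure {a, b, c}

lemma inv {x : M} (hx : x ∈ H) : x.n = 0 → x.f = 2 * x.q - x.p ∧ x.q ≤ x.p := by
  induction hx using Submonoid.closure_induction with
  | one => intro; exact ⟨rfl, le_rfl⟩
  | mem x hx => rcases hx with rfl | rfl | rfl <;> simp [a, b, c]
  | mul x y _ _ p q =>
    simp only [mul_def, Nat.add_eq_zero_iff]
    rintro ⟨h1, h2⟩
    have := p h1; have := q h2
    simp only [h1, h2, if_true]; omega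

lemma acyc (u x v : H) (h : u * x * v = x) : u = 1 ∧ v = 1 := by
  have h := congrArg Subtype.val h
  have hu := inv u.2
  have hv := inv v.2
  simp only [Submonoid.coe_mul, mul_def, M.ext_iff] at h
  obtain ⟨h1, h2, h3, h4⟩ := h
  have e1 : u.1.n = 0 := by omega
  have e2 : v.1.n = 0 := by omega
  simp only [e1, e2, if_true, zero_add] at h2 h3
  have := hu e1; have := hv e2
  refine ⟨Subtype.ext (M.ext e1 ?_ ?_ ?_), Subtype.ext (M.ext e2 ?_ ?_ ?_)⟩ <;>
    change _ = 0 <;> split_ifs at h2 h3 <;> omega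

lemma cpow (k : ℕ) : c ^ k = ⟨0, k, k, k⟩ := by
  induction k with
  | zero => rfl
  | succ k ih => rw [pow_succ, ih]; simp [mul_def, c]

theorem result : ∃ (H : Type) (_ : Monoid H), Monoid.FG H ∧
    (∀ u v x : H, ¬ IsUnit u ∨ ¬ IsUnit v → u * x * v ≠ x) ∧
    ∃ x : ℕ → H, ∀ k, {y | ∃ u v, y = u * x k * v} ⊂ {y | ∃ u v, y = u * x (k + 1) * v} := by
  have ha : a ∈ H := Submonoid.subset_closure (by simp)
  have hb : b ∈ H := Submonoid.subset_closure (by simp)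
  have hc : c ∈ H := Submonoid.subset_closure (by simp)
  refine ⟨H, inferInstance, Monoid.closure_finite_fg _, fun u v x h e => ?_,
    fun k => ⟨b, hb⟩ * ⟨c, hc⟩ ^ k * ⟨b, hb⟩, fun k => ?_⟩
  · obtain ⟨rfl, rfl⟩ := acyc u x v e
    simp at h
  · have e : (⟨b, hb⟩ * ⟨c, hc⟩ ^ k * ⟨b, hb⟩ : H) =
        ⟨b, hb⟩ * ⟨c, hc⟩ ^ (k + 1) * ⟨b, hb⟩ * ⟨a, ha⟩ :=
      Subtype.ext (by simp [cpow, mul_def, a, b])
    refine ⟨?_, fun h => ?_⟩
    · rintro _ ⟨u, v, rfl⟩
      exact ⟨u, ⟨a, ha⟩ * v, by simp only [e, mul_assoc]⟩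
    · obtain ⟨u, v, h⟩ := h ⟨1, 1, rfl⟩
      have := (acyc u (⟨b, hb⟩ * ⟨c, hc⟩ ^ (k + 1) * ⟨b, hb⟩) (⟨a, ha⟩ * v)
        (by simpa only [e, mul_assoc, one_mul, mul_one] using h.symm)).2
      have h2 := congrArg (fun z : H => z.1.p) this
      simp [mul_def, a] at h2
      exact absurd h2 (by change _ ≠ 0; omega)

end Pool.Agent.Results.MP_07bc1a_al.NoACCP
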